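import Mathlib
import Pool.Agent.H690R.UpChain
import Pool.Agent.H690R.RhoUnbounded

/-! The gap `π - ρ` at the two ends of a window `(t, t+b]` with nearly the extremal number `ρ(b)` of
primes, and functions at bounded distance from `π`.

`rho y = limsup_x (π(x+y) - π(x))` is the Hardy-Littlewood function (`H206R2/RhoChain`),
`Cnt F` says that `F` is nondecreasing with `F (x + y) ≤ F x + y`, and
`up F y = limsup_x (F(x+y) - F(x))` (`H690R/UpChain`); thus `up π = ρ`. -/

set_option autoImplicit false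

namespace Pool.Agent.Results.MP_5046ca_nt.NearExtremal

open Filter Pool.Agent.H206R2 Pool.Agent.H690R

/-- The gap `π(y) - ρ(y)`, where `ρ(y) = limsup_x (π(x+y) - π(x))`. -/
noncomputable def gap (y : ℕ) : ℤ := (Nat.primeCounting y : ℤ) - (rho y : ℤ)

/-- (1) For every `D` there are arbitrarily large `b` such that for all late `t` for which the
window `(t, t+b]` contains at least `ρ(b) - D` primes, `ρ(t+b) < ρ(t) + ρ(b)` and
`gap (t + b) ≥ gap t + 1 - s`, where `s ≤ D` is the defect `ρ(b) - (π(t+b) - π(t))`.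

(2) No function `F` at bounded distance from `π` satisfies `F(b) = limsup_t (F(t+b) - F(t))` for all
large `b`.

(3) If `π - ρ` is bounded and `F` has bounded distance from `π`, then for arbitrarily large `b`
both `F⁺(t+b) < F⁺(t) + F⁺(b)` for all late `t`, and `F⁺⁺(b) < F⁺(b)`. -/
theorem result :
    (∀ D B : ℕ, ∃ b : ℕ, B ≤ b ∧ ∀ᶠ t in atTop,
      Nat.primeCounting t + rho b ≤ Nat.primeCounting (t + b) + D →
        rho (t + b) + 1 ≤ rho t + rho b ∧
        gap t + 1 - ((rho b : ℤ) - ((Nat.primeCounting (t + b) : ℤ) - Nat.primeCounting t)) ≤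
          gap (t + b)) ∧
    (¬ ∃ F : ℕ → ℕ, Cnt F ∧ (∃ C : ℤ, ∀ y, |(F y : ℤ) - Nat.primeCounting y| ≤ C) ∧
      ∀ᶠ b in atTop, F b = up F b) ∧
    ((∃ G : ℤ, ∀ y, |gap y| ≤ G) → ∀ F : ℕ → ℕ, Cnt F →
      (∃ C : ℤ, ∀ y, |(F y : ℤ) - Nat.primeCounting y| ≤ C) → ∀ B : ℕ, ∃ b : ℕ, B ≤ b ∧
        (∀ᶠ t in atTop, up F (t + b) < up F t + up F b) ∧ up (up F) b < up F b) := by
  have conv : ∀ F : ℕ → ℕ, (∃ C : ℤ, ∀ y, |(F y : ℤ) - Nat.primeCounting y| ≤ C) →
      ∃ C : ℕ, ∀ y, F y ≤ Nat.primeCounting y + C ∧ Nat.primeCounting y ≤ F y + C := by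
    rintro F ⟨C, hC⟩
    refine ⟨C.toNat, fun y => ?_⟩
    have h := abs_le.1 (hC y)
    have h2 : C ≤ C.toNat := Int.self_le_toNat C
    constructor <;> omega
  refine ⟨?_, ?_, ?_⟩
  · intro D B
    obtain ⟨a, ha⟩ := rho_unbounded (D + 2)
    have ha2 : 2 * 0 + D + 2 ≤ up Nat.primeCounting (max a B) := by
      rw [up_pi]
      have := rho_mono (le_max_left a B)
      omega
    obtain ⟨b, hb, hev⟩ := strict cnt_pi 0 (fun y => ⟨le_rfl, le_rfl⟩) (max a B) D ha2
    rw [up_pi] at hev
    refine ⟨b, le_trans (le_max_right _ _) hb, ?_⟩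
    filter_upwards [hev] with t ht h
    have h1 := ht h
    refine ⟨h1, ?_⟩
    unfold gap
    omega
  · rintro ⟨F, hF, hC, hfix⟩
    obtain ⟨C, hC⟩ := conv F hC
    have hup : up F = up (up F) := up_congr hfix
    obtain ⟨B, hB⟩ := eventually_atTop.1 hfix
    have hG : ∀ᶠ y in atTop, rho y ≤ Nat.primeCounting y + (3 * C) ∧
        Nat.primeCounting y ≤ rho y + (3 * C) := by
      filter_upwards [hfix] with y hy
      have h1 := up_near hF C hC y
      have h2 := hC y
      omega
    obtain ⟨Y, hY⟩ := eventually_atTop.1 hG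
    have hG' : ∀ y, rho y ≤ Nat.primeCounting y + (3 * C + Y) ∧
        Nat.primeCounting y ≤ rho y + (3 * C + Y) := by
      intro y
      rcases Nat.lt_or_ge y Y with h | h
      · have h1 : rho y ≤ y := by rw [← up_pi]; exact up_le cnt_pi y
        have h2 := pc_add_le 0 y
        simp only [Nat.primeCounting_zero, zero_add] at h2
        omega
      · have := hY y h
        omega
    obtain ⟨b, -, -, hb⟩ := up_up_lt hF C hC _ hG' 0
    rw [← hup] at hb
    exact lt_irrefl _ hb
  · rintro ⟨G, hG⟩ F hF hC B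
    obtain ⟨C, hC⟩ := conv F hC
    have hG' : ∀ y, rho y ≤ Nat.primeCounting y + G.toNat ∧
        Nat.primeCounting y ≤ rho y + G.toNat := by
      intro y
      have h := abs_le.1 (hG y)
      unfold gap at h
      have h2 : G ≤ G.toNat := Int.self_le_toNat G
      constructor <;> omega
    obtain ⟨b, hb1, hb2, hb3⟩ := up_up_lt hF C hC _ hG' B
    refine ⟨b, hb1, ?_, hb3⟩
    filter_upwards [hb2] with t ht
    omega

end Pool.Agent.Results.MP_5046ca_nt.NearExtremal
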