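import Mathlib
import Pool.Agent.H206R2.RhoChain

/-!
# Strict subadditivity of `ρ` or large drops of `π - ρ`

`ρ(y) = limsup (π(x+y) - π(x))` is subadditive.  For every `a` there are arbitrarily large `b` such that,
for all large `t`, the subadditivity `ρ(t+b) ≤ ρ(t) + ρ(b)` is strict or `π - ρ` drops by at least
`ρ(a) - 1` from `t` to `t + b`.  (By the theorem of Maynard and Tao `ρ(a)` is unbounded, so if `π - ρ` is
bounded then for arbitrarily large `b` one has `ρ(t+b) < ρ(t) + ρ(b)` for ALL large `t`.)

The proof is the chain argument of the starting file `NoFiniteLimit` (the case `D = 0`; helper206): a loss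
of `D` primes in the longest window is not increased along a chain across which `ρ` is additive.
-/

set_option autoImplicit false

namespace Pool.Agent.Results.MP_5046ca_nt.StrictOrDrop

open Filter Pool.Agent.H206R2

/-- The window `(t, t+b]` contains at least `ρ(b) - D` primes. -/
def Near (D b t : ℕ) : Prop :=
  Nat.primeCounting t + rho b ≤ Nat.primeCounting (t + b) + D

/-- The gap `π(y) - ρ(y)`, where `ρ(y) = limsup_x (π(x+y) - π(x))`. -/
noncomputable def gap (y : ℕ) : ℤ := (Nat.primeCounting y : ℤ) - (rho y : ℤ)

theorem chainD (a D : ℕ)
    (H : ∀ b, a ≤ b → ∃ᶠ t in atTop, Near D b t ∧ rho t + rho b ≤ rho (t + b)) (n : ℕ) :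
    ∃ f : ℕ → ℕ, f 0 = a ∧ (∀ i, i < n → f i < f (i + 1)) ∧
      (∀ i j, i < j → j ≤ n → Near D a (f j - f i)) ∧
      (∀ᶠ x in atTop, Near D (f n) x → ∀ i, i ≤ n → Near D a (x + (f n - f i))) := by
  induction n with
  | zero =>
    refine ⟨fun _ => a, rfl, ?_, ?_, ?_⟩
    · intro i hi; omega
    · intro i j h1 h2; omega
    · refine Eventually.of_forall fun x hx i hi => ?_
      simpa using hx
  | succ n ih =>
    obtain ⟨f, h0, hinc, hpair, hev⟩ := ih
    have hmono : ∀ i, i ≤ n → a ≤ f i := by
      intro i
      induction i with
      | zero => intro _; rw [h0]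
      | succ k ihk =>
        intro hk
        have := hinc k (by omega)
        have := ihk (by omega)
        omega
    have hle : ∀ i, i ≤ n → f i ≤ f n := by
      intro i hi
      obtain ⟨d, rfl⟩ := Nat.exists_eq_add_of_le hi
      clear hi
      have : ∀ e, e ≤ d → f i ≤ f (i + e) := by
        intro e
        induction e with
        | zero => intro _; rfl
        | succ k ihk =>
          intro hk
          have h1 := ihk (by omega)
          have h2 := hinc (i + k) (by omega)
          rw [← add_assoc]
          omega
      exact this d le_rfl
    obtain ⟨t, ⟨hext, hadd⟩, hevt, htpos⟩ :=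
      ((H (f n) (hmono n le_rfl)).and_eventually
        (hev.and (eventually_ge_atTop (1 : ℕ)))).exists
    refine ⟨fun i => if i ≤ n then f i else t + f n, ?_, ?_, ?_, ?_⟩
    · simp [h0]
    · intro i hi
      rcases Nat.lt_or_ge i n with h | h
      · have h1 : i ≤ n := by omega
        have h2 : i + 1 ≤ n := by omega
        simp only [h1, h2, if_true]
        exact hinc i h
      · have : i = n := by omega
        subst this
        have h2 : ¬ (i + 1 ≤ i) := by omega
        simp only [le_refl, if_true, h2, if_false]
        omega
    · intro i j hij hj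
      rcases Nat.lt_or_ge n j with h | h
      · have h1 : i ≤ n := by omega
        have h2 : ¬ (j ≤ n) := by omega
        simp only [h1, h2, if_true, if_false]
        have h3 := hevt hext i h1
        have h4 : t + f n - f i = t + (f n - f i) := by
          have := hle i h1
          omega
        rw [h4]
        exact h3
      · have h1 : i ≤ n := by omega
        simp only [h1, h, if_true]
        exact hpair i j hij h
    · have h2 : ¬ (n + 1 ≤ n) := by omega
      simp only [h2, if_false]
      obtain ⟨X1, hX1⟩ := eventually_atTop.1 hev
      obtain ⟨X2, hX2⟩ := eventually_atTop.1 (rho_upper t)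
      refine eventually_atTop.2 ⟨max X1 X2, fun x hx hE i hi => ?_⟩
      have hx1 : X1 ≤ x := le_trans (le_max_left _ _) hx
      have hx2 : X2 ≤ x := le_trans (le_max_right _ _) hx
      have hE' : Nat.primeCounting x + rho (t + f n) ≤ Nat.primeCounting (x + (t + f n)) + D := hE
      have hpre : Near D (f n) x := by
        have a2 := hX2 (x + f n) (by omega)
        rw [show x + f n + t = x + (t + f n) by ring] at a2
        unfold Near
        omega
      have hsuf : Near D (f n) (x + t) := by
        have a2 := hX2 x hx2
        unfold Near
        rw [show x + t + f n = x + (t + f n) by ring]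
        omega
      rcases Nat.lt_or_ge n i with h | h
      · have h3 : ¬ (i ≤ n) := by omega
        simp only [h3, if_false]
        have := hX1 x hx1 hpre n le_rfl
        simpa using this
      · simp only [h, if_true]
        have h3 := hX1 (x + t) (by omega) hsuf i h
        have h4 : x + (t + f n - f i) = x + t + (f n - f i) := by
          have := hle i h
          omega
        rw [h4]
        exact h3

theorem rho_le (a D : ℕ)
    (H : ∀ b, a ≤ b → ∃ᶠ t in atTop, Near D b t ∧ rho t + rho b ≤ rho (t + b)) :
    rho a ≤ D + 1 := by
  set M := a.factorial with hM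
  have hMpos : 0 < M := Nat.factorial_pos a
  obtain ⟨f, h0, hinc, hpair, -⟩ := chainD a D H M
  obtain ⟨i, hi, j, hj, hij, hmod⟩ : ∃ i ∈ Finset.range (M + 1), ∃ j ∈ Finset.range (M + 1),
      i ≠ j ∧ f i % M = f j % M := by
    apply Finset.exists_ne_map_eq_of_card_lt_of_maps_to (t := Finset.range M)
    · simp
    · intro i _
      simp only [Finset.coe_range, Set.mem_Iio]
      exact Nat.mod_lt _ hMpos
  have key : ∀ i j, i < j → j ≤ M → f i % M = f j % M → rho a ≤ D + 1 := by
    intro i j hij hj hmod
    have hlt : f i < f j := by
      obtain ⟨d, hd⟩ := Nat.exists_eq_add_of_lt hij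
      have : ∀ e, i + e + 1 ≤ M → f i < f (i + e + 1) := by
        intro e
        induction e with
        | zero => intro h; exact hinc i (by omega)
        | succ k ihk =>
          intro h
          have h1 := ihk (by omega)
          have h2 := hinc (i + k + 1) (by omega)
          have : i + (k + 1) + 1 = i + k + 1 + 1 := by ring
          rw [this]
          omega
      rw [hd]
      exact this d (by omega)
    have hdvd : M ∣ f j - f i := (Nat.modEq_iff_dvd' hlt.le).1 hmod
    have hE := hpair i j hij hj
    set d := f j - f i with hd
    have hdpos : 0 < d := by omega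
    have hstep : ∀ k, 1 ≤ k → k ≤ a → Nat.primeCounting (d + k) ≤ Nat.primeCounting d + 1 := by
      intro k
      induction k with
      | zero => intro h; omega
      | succ k ihk =>
        intro _ hk
        rcases Nat.eq_zero_or_pos k with hk0 | hk0
        · subst hk0
          have := pc_add_le d 1
          simpa using this
        · have h1 := ihk hk0 (by omega)
          have hnp : ¬ (d + k + 1).Prime := by
            intro hp
            have hdk : (k + 1) ∣ d + k + 1 := by
              have e1 : (k + 1) ∣ M := Nat.dvd_factorial (by omega) hk
              have e2 : (k + 1) ∣ d := e1.trans hdvd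
              rw [add_assoc]
              exact Dvd.dvd.add e2 dvd_rfl
            rcases (Nat.dvd_prime hp).1 hdk with h | h
            · omega
            · omega
          have h2 : Nat.primeCounting (d + k + 1) = Nat.primeCounting (d + k) := by
            simp only [Nat.primeCounting, Nat.primeCounting']
            rw [Nat.count_succ, if_neg hnp]
            rfl
          rw [← add_assoc, h2]
          exact h1
    rcases Nat.eq_zero_or_pos a with ha | ha
    · have : rho a ≤ 0 := by
        rw [ha]
        obtain ⟨x, hx⟩ := (rho_attained 0).exists
        simp at hx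
        omega
      omega
    · have h1 := hstep a ha le_rfl
      unfold Near at hE
      omega
  simp only [Finset.mem_range] at hi hj
  rcases Nat.lt_or_ge i j with h | h
  · exact key i j h (by omega) hmod
  · exact key j i (by omega) (by omega) hmod.symm

theorem main (a D : ℕ) (ha : D + 2 ≤ rho a) (B : ℕ) : ∃ b, B ≤ b ∧ ∀ᶠ t in atTop,
    rho (t + b) < rho t + rho b ∨ ¬ Near D b t := by
  by_contra hcon
  have H : ∀ b, max a B ≤ b → ∃ᶠ t in atTop, Near D b t ∧ rho t + rho b ≤ rho (t + b) := by
    intro b hb hn
    apply hcon
    refine ⟨b, le_trans (le_max_right _ _) hb, ?_⟩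
    filter_upwards [hn] with t ht
    by_cases hN : Near D b t
    · left
      by_contra h
      exact ht ⟨hN, by omega⟩
    · exact Or.inr hN
  have h1 := rho_le _ D H
  have h2 := rho_mono (le_max_left a B)
  omega

/-- For every `a` there are arbitrarily large `b` such that for all sufficiently large `t`
`ρ(t+b) < ρ(t) + ρ(b)`, or `π - ρ` is smaller by at least `ρ(a) - 1` at `t + b` than at `t`. -/
theorem result : ∀ a B : ℕ, ∃ b, B ≤ b ∧ ∀ᶠ t in atTop,
    rho (t + b) < rho t + rho b ∨ gap (t + b) ≤ gap t - ((rho a : ℤ) - 1) := by
  intro a B
  rcases Nat.lt_or_ge (rho a) 2 with h | h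
  · refine ⟨B, le_rfl, ?_⟩
    filter_upwards [rho_upper B] with t ht
    rcases lt_or_eq_of_le (rho_add t B) with h4 | h4
    · exact Or.inl h4
    · right
      unfold gap
      omega
  · obtain ⟨b, hb, hev⟩ := main a (rho a - 2) (by omega) B
    refine ⟨b, hb, ?_⟩
    filter_upwards [hev] with t ht
    rcases ht with h1 | h1
    · exact Or.inl h1
    · rcases lt_or_eq_of_le (rho_add t b) with h4 | h4
      · exact Or.inl h4
      · right
        unfold Near at h1
        unfold gap
        omega

end Pool.Agent.Results.MP_5046ca_nt.StrictOrDrop
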